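import Pool.Agent.R413.MQ.Bsd

/-!
# Central order zero over multiquadratic fields for the twists of `X_0(49)` by all products of primes
# `≡ 1 mod 4`, in the exact proportion of the good pairs

`E_M` is the quadratic twist by `M` of `X_0(49) : y² + x y = x³ - x² - 2 x - 1`, an elliptic curve with
complex multiplication by `ℤ[(1 + √-7) / 2]`, and `D` runs over all squarefree numbers `D ≥ 1` with all
prime factors `≡ 1 mod 4` (inert or split in `ℚ(√-7)`, in any number). Let `K = ℚ(√d_1, …, √d_n)` be of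
degree `2ⁿ`, real or not, with `√-7 ∉ K`, where `M` and the `d_i` are in the class up to squares and up to
the factor `-7`. Let `π` be the automorphic representation of `GL₂(𝔸_K)` of `E_M` over `K`; it is
cuspidal, and the twist of `π` by the quadratic character of `K(√D)/K` is that of `E_{MD}` over `K`.
* The pair `(M D, d)` is good if for all `2ⁿ` twists `E_{MD ∏_{i ∈ T} d_i}` the group of the rational
  points is finite and `Ш(ℚ)` has no element of order two. This holds for exactly the proportion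
  `c ^ 2ⁿ`, `c = ∏_{i ≥ 0} (1 - 2^{-(2i+1)}) = 0.4194...`, of the `D` of the class.
* For these `D` the L-function of the twist of `π` by `χ_D` is entire and not zero at the centre, and
  `E_{MD}(K)` is finite.
* So the central order of `π ⊗ χ_D` is zero for at least the proportion `c ^ 2ⁿ` of the `D` of the class,
  and for at least `a X / √(log X)` of them up to `X`, `a > 0`.

The counting is in `Pool/Agent/R413/SM` (after helper494's `R494/SQ` and the project JQ of the starting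
files, extended to the full class), the fields are treated in `Pool/Agent/R413/MQ` after helper426's
`R426/QB` and the starting files `Y687/MQ`, the criterion for one `D` is helper428's
(`MP_4a9ea6_nt/TwoPartTwistsX49`).
-/

set_option autoImplicit false

open NumberField IsDedekindDomain Filter Topology

namespace Pool.Agent.Results.MP_50bb2e_nt.FullClassX49

open Pool.Agent.TH841.NF.D (Sha)
open Pool.Agent.Results.MP_4a9ea6_nt.TwoPartTwistsX49 (E)

/-- the class: `D` is squarefree and all its prime factors are `≡ 1 mod 4` -/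
def Adm (D : ℕ) : Prop := Squarefree D ∧ ∀ p ∈ D.primeFactors, p % 4 = 1

/-- `z` is `D` or `-7 D` up to nonzero squares -/
def UpTo (z : ℤ) (D : ℕ) : Prop := ∃ k : ℤ, k ≠ 0 ∧ (z = D * k ^ 2 ∨ z = -7 * D * k ^ 2)

/-- `z` is, up to squares and to the factor `-7`, in the class -/
def AdmUpTo (z : ℤ) : Prop := ∃ D : ℕ, Adm D ∧ UpTo z D

/-- no product of some of the `d_i` is a square or `-7` times a square: `ℚ(√d_1, …, √d_n)` has
degree `2 ^ n` and does not contain `√-7` -/
def Ind {n : ℕ} (d : Fin n → ℤ) : Prop := ∀ T : Finset (Fin n), T.Nonempty →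
  ¬ IsSquare (∏ i ∈ T, d i) ∧ ¬ IsSquare (-7 * ∏ i ∈ T, d i)

/-- `E_D(ℚ)` is finite and `Ш(E_D/ℚ)` has no element of order two -/
def RankZeroShaTwo (D : ℕ) : Prop :=
  Finite (E D).toAffine.Point ∧ ∀ x : Sha (E D), 2 • x = 0 → x = 0

/-- the good pairs `(M, d)`: each of the numbers `M ∏_{i ∈ T} d_i` is, up to squares and to the factor
`-7`, a number `D` of the class with `E_D(ℚ)` finite and `Ш(E_D/ℚ)[2] = 0` -/
def GoodPair {n : ℕ} (M : ℤ) (d : Fin n → ℤ) : Prop :=
  ∀ T : Finset (Fin n), ∃ D : ℕ, Adm D ∧ RankZeroShaTwo D ∧ UpTo (M * ∏ i ∈ T, d i) D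

/-- `K = ℚ(√d_1, …, √d_n)` -/
def IsMultiquadratic {n : ℕ} (d : Fin n → ℤ) (K : Type) [Field K] [NumberField K] : Prop :=
  ∃ x : Fin n → K, (∀ i, x i ^ 2 = (d i : K)) ∧ IntermediateField.adjoin ℚ (Set.range x) = ⊤

/-- the group `E_M(K)`, with the equation `y² = x³ - 35 M² x - 98 M³` -/
abbrev EK (K : Type) [Field K] (M : ℤ) : Type :=
  WeierstrassCurve.Affine.Point (WeierstrassCurve.toAffine
    ({ a₁ := 0, a₂ := 0, a₃ := 0, a₄ := ((-35 * M ^ 2 : ℤ) : K), a₆ := ((-98 * M ^ 3 : ℤ) : K) } :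
      WeierstrassCurve K))

/-- the number `q_v` of elements of the residue field of a finite place `v` of `K` -/
noncomputable def qv (K : Type) [Field K] (v : HeightOneSpectrum (𝓞 K)) : ℕ :=
  Nat.card (𝓞 K ⧸ v.asIdeal)

/-- `a_v = q_v + 1 - #E_M(k_v)`, that is `q_v` minus the number of affine points -/
noncomputable def av (K : Type) [Field K] (M : ℤ) (v : HeightOneSpectrum (𝓞 K)) : ℤ :=
  (qv K v : ℤ) - Nat.card {z : (𝓞 K ⧸ v.asIdeal) × (𝓞 K ⧸ v.asIdeal) //
    z.2 ^ 2 = z.1 ^ 3 + ((-35 * M ^ 2 : ℤ) : 𝓞 K ⧸ v.asIdeal) * z.1 +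
      ((-98 * M ^ 3 : ℤ) : 𝓞 K ⧸ v.asIdeal)}

open Classical in
/-- `F` is entire and is, for `Re s > 3/2`, the `L`-function of `E_M` over `K` without the Euler
factors at the places `v ∣ 14 M m` -/
def IsL (K : Type) [Field K] (M m : ℤ) (F : ℂ → ℂ) : Prop :=
  Differentiable ℂ F ∧ ∀ s : ℂ, (3 : ℝ) / 2 < s.re →
    HasProd (fun v : HeightOneSpectrum (𝓞 K) =>
      if ((14 * M * m : ℤ) : 𝓞 K) ∈ v.asIdeal then 1 else
        (1 - (av K M v : ℂ) * (qv K v : ℂ) ^ (-s) + (qv K v : ℂ) ^ (1 - 2 * s))⁻¹) (F s)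

/-- the `L`-function of `E_M` over `K` is entire and not zero at the centre `s = 1` -/
def OrderZero (K : Type) [Field K] (M m : ℤ) : Prop :=
  (∃ F : ℂ → ℂ, IsL K M m F) ∧ ∀ F : ℂ → ℂ, IsL K M m F → F 1 ≠ 0

/-- the proportion `(1 - 1/2) (1 - 1/8) (1 - 1/32) ⋯` -/
noncomputable def c : ℝ := ∏' i : ℕ, (1 - (1 / 2 : ℝ) ^ (2 * i + 1))

open Classical in
/-- the number of the `D ≤ X` of the class with the property `Q` -/
noncomputable def num (Q : ℕ → Prop) (X : ℕ) : ℕ :=
  ((Finset.Icc 1 X).filter fun D => Adm D ∧ Q D).card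

section proof

open Pool.Agent.R413

theorem pair_iff {n : ℕ} (M : ℤ) (d : Fin n → ℤ) : GoodPair M d ↔ MQ.GO d M := by
  unfold GoodPair MQ.GO
  refine forall_congr' fun T => exists_congr fun D => ?_
  rw [← MQ.gc_iff, and_assoc]
  rfl

theorem order_of (K : Type) [Field K] [NumberField K] {n : ℕ} {M : ℤ} {d : Fin n → ℤ} (hd : Ind d)
    (hK : IsMultiquadratic d K) (h : GoodPair M d) :
    Module.finrank ℚ K = 2 ^ n ∧ OrderZero K M (∏ i, d i) ∧ Finite (EK K M) := by
  obtain ⟨x, hx, hK⟩ := hK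
  obtain ⟨h1, h2, h3⟩ := MQ.field_one hd ((pair_iff M d).1 h) K hx hK
  exact ⟨h1, h3, h2⟩

theorem num_le {Q R : ℕ → Prop} (h : ∀ D, Q D → R D) (X : ℕ) : num Q X ≤ num R X := by
  classical
  unfold num
  refine Finset.card_le_card fun D hD => ?_
  obtain ⟨h1, h2, h3⟩ := Finset.mem_filter.1 hD
  exact Finset.mem_filter.2 ⟨h1, h2, h D h3⟩

end proof

/-- **Central order zero for the twists of `X_0(49)` over multiquadratic fields.** -/
theorem result :
    (∀ (n : ℕ) (M : ℤ) (d : Fin n → ℤ), Ind d → GoodPair M d →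
      ∀ (K : Type) [Field K] [NumberField K], IsMultiquadratic d K →
        Module.finrank ℚ K = 2 ^ n ∧ OrderZero K M (∏ i, d i) ∧ Finite (EK K M)) ∧
    (∀ (n : ℕ) (M : ℤ) (d : Fin n → ℤ), Ind d → AdmUpTo M → (∀ i, AdmUpTo (d i)) →
      Tendsto (fun X : ℕ => (num (fun D => GoodPair (M * D) d) X : ℝ) / (num (fun _ => True) X : ℝ))
        atTop (𝓝 (c ^ 2 ^ n)) ∧
      ∀ (K : Type) [Field K] [NumberField K], IsMultiquadratic d K →
        (∀ ε : ℝ, 0 < ε → ∀ᶠ X : ℕ in atTop, (c ^ 2 ^ n - ε) * (num (fun _ => True) X : ℝ) ≤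
          (num (fun D => OrderZero K (M * D) (∏ i, d i)) X : ℝ)) ∧
        ∃ (a : ℝ) (X₀ : ℕ), 0 < a ∧ ∀ X : ℕ, X₀ ≤ X → a * X / Real.sqrt (Real.log X) ≤
          (num (fun D => OrderZero K (M * D) (∏ i, d i)) X : ℝ)) ∧
    0.4194 < c ∧ c < 0.4195 := by
  have hcc : Pool.Agent.Y703.CQ.c2 = c := rfl
  have hc1 : 0.4194 < c := Pool.Agent.Y948.CQ.t_C2.2.2.2.1
  have hc2 : c < 0.4195 := Pool.Agent.Y948.CQ.t_C2.2.2.2.2
  refine ⟨fun n M d hd h K _ _ hK => order_of K hd hK h, fun n M d hd hM ha => ?_, hc1, hc2⟩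
  have h := Pool.Agent.R413.MQ.prop_field (n := n) (d := d) hd (fun i => ha i) (N := M) hM
  rw [hcc] at h
  have h1 : Tendsto (fun X : ℕ => (num (fun D => GoodPair (M * D) d) X : ℝ) /
      (num (fun _ => True) X : ℝ)) atTop (𝓝 (c ^ 2 ^ n)) := by
    refine h.congr fun X => ?_
    have e := Pool.Agent.R413.MQ.num_congr (Q := fun D => Pool.Agent.R413.MQ.GO d (M * D))
      (R := fun D => GoodPair (M * D) d) (fun D _ => (pair_iff _ _).symm) X
    rw [e]
    rfl
  refine ⟨h1, fun K _ _ hK => ?_⟩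
  have hle : ∀ X, num (fun D => GoodPair (M * D) d) X ≤
      num (fun D => OrderZero K (M * D) (∏ i, d i)) X :=
    num_le fun D hD => (order_of K hd hK hD).2.1
  have hcpos : 0 < c ^ 2 ^ n := by
    have k1 : 0 < c := by linarith
    positivity
  constructor
  · intro ε hε
    filter_upwards [h1.eventually (lt_mem_nhds (show c ^ 2 ^ n - ε < c ^ 2 ^ n by linarith))]
      with X hX
    have h2 : ((num (fun D => GoodPair (M * D) d) X : ℕ) : ℝ) ≤
        (num (fun D => OrderZero K (M * D) (∏ i, d i)) X : ℝ) := by exact_mod_cast hle X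
    rcases Nat.eq_zero_or_pos (num (fun _ => True) X) with h0 | h0
    · rw [h0]
      simp only [Nat.cast_zero, mul_zero]
      exact Nat.cast_nonneg _
    · have h0' : (0 : ℝ) < (num (fun _ => True) X : ℝ) := by exact_mod_cast h0
      exact ((lt_div_iff₀ h0').1 hX).le.trans h2
  · obtain ⟨a, X₀, ha, h3⟩ := Pool.Agent.R413.SQ.Joint.low_of hcpos h1
    refine ⟨a, X₀, ha, fun X hX => (h3 X hX).trans ?_⟩
    exact_mod_cast hle X

end Pool.Agent.Results.MP_50bb2e_nt.FullClassX49
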