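import Pool.Agent.R494.FG8

/-!
# Groups of quadratic characters over multiquadratic fields all of whose twists have central order
# zero, with any residue graph of the primes

Let `E_N` be the quadratic twist by `N` of the non-CM curve `X_0(14)` or of the CM curve `X_0(49)`. Let `𝒩` be
a finite set of such twists, `N` in the classes below, for which `E_N(ℚ)` is finite and `Ш(E_N/ℚ)[2] = 0`.
Let `m` be a multiple of `56` and of all the `N`, and `r` a class modulo `m` which is prime to `m`, `1` modulo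
`8`, a square modulo `7` and modulo the prime factors of the `N`. Let `g : ℕ → ℕ` be a function which tends
to infinity (however slowly). Let `G` be a graph with the vertices `0, 1, 2, …`, decomposed into
finite intervals of vertices of any sizes, such that each vertex is joined to all or to none of the vertices
of every later interval (for intervals of size one: any countable graph).

There are `M ∈ {1, -q}`, `M' ∈ {1, q'}`, with primes `q`, `q'`, and there is an infinite sequence of prime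
numbers `p_0 < p_1 < ⋯`, all `≡ r` modulo `m`, with `p_j` a nonsquare modulo `p_i` if and only if `i` and `j`
are joined in `G`, such that the primes which belong to the same interval of vertices form a cluster of diameter
`≤ g(p)`, `p` the first of them, with the following property. Let `F = ℚ(√D_1, …, √D_n)`,
`D_j = ∏_{i ∈ T_j} p_i`, for a finite independent family `T_1, …, T_n` of finite sets, and let `χ_S` be the
quadratic character of `F` which belongs to `F(√D)`, `D = ∏_{i ∈ S} p_i`, for a finite set `S`. Let `E` be one of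
the curves `E_{N M}` (twists of `X_0(14)`) and `E_{N M'}` (twists of `X_0(49)`), `E_N ∈ 𝒩`, over `F`.

(1) The `2 ^ n` curves over `ℚ` which are the factors of the Weil restriction of the twist of `E` by
`χ_S` have finitely many rational points and no element of order two in `Ш` if and only if for all the
symmetric differences `T` of sets `T_j` the subgraph of `G` induced on the symmetric difference of `S` and
`T` has an odd number of rooted spanning forests. If this is the case, then `L(E ⊗ χ_S, s)` is entire and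
does not vanish at `s = 1`, the twist of `E` by `χ_S` has finitely many `F`-rational points, and the
2-primary part of its group `Ш` is finite and killed by `2 ^ n`.

(2) If `G` has no edges, then all this is true for all the fields `F`, of all degrees `2 ^ n`, and for all the
characters `χ_S`, which form an infinite group: the central order of `L(E ⊗ χ_S, s)` over `F` is zero. If `r = 1`,
then the characters `χ_S` are trivial at the places of `F` which divide `m ∞`.

Proof: our `R494/FG8` (core), a refinement of our files `MP_32c55d_nt/InfiniteGraphFields` and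
`MP_cd906c_nt/FieldsFromGraphs`, in which `S = ∅`.
-/

set_option autoImplicit false

open NumberField IsDedekindDomain

namespace Pool.Agent.Results.MP_50bb2e_nt.GraphCharacters

/-- the coefficient `a` of the twist `y² = x³ + a x + b` by `N` of `X_0(49)` (`c = true`) and of
`X_0(14)` (`c = false`) -/
def A (c : Bool) (N : ℤ) : ℤ := if c = true then -35 * N ^ 2 else 5805 * N ^ 2

/-- the coefficient `b` of the twist `y² = x³ + a x + b` by `N` of `X_0(49)` (`c = true`) and of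
`X_0(14)` (`c = false`) -/
def B (c : Bool) (N : ℤ) : ℤ := if c = true then -98 * N ^ 3 else -285714 * N ^ 3

/-- the twist by `N` over the field `K` -/
def E (K : Type) [Field K] (c : Bool) (N : ℤ) : WeierstrassCurve K :=
  { a₁ := 0, a₂ := 0, a₃ := 0, a₄ := (A c N : K), a₆ := (B c N : K) }

/-- `E_N(ℚ)` is finite and `Ш(E_N/ℚ)` has no element of order two -/
def RankZeroShaTwo (c : Bool) (N : ℤ) : Prop :=
  Finite (E ℚ c N).toAffine.Point ∧ ∀ x : Pool.Agent.TH841.NF.D.Sha (E ℚ c N), 2 • x = 0 → x = 0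

/-- the class of the twists of `X_0(49)`: `N ≥ 1` is squarefree and all its prime factors are `1`
modulo `4` -/
def Class49 (N : ℤ) : Prop := 0 < N ∧ Squarefree N ∧ ∀ p : ℕ, p.Prime → (p : ℤ) ∣ N → p % 4 = 1

/-- the class of the twists of `X_0(14)`: `N` is squarefree, positive or negative, `1` modulo `4` and a
square modulo `7`, and all its prime factors `p ≠ 3` split completely in `ℚ(i, √2, √-7)`, or they are
inert in `ℚ(√2)` and in `ℚ(√-7)` -/
def Class14 (N : ℤ) : Prop := Squarefree N ∧ N % 4 = 1 ∧ (N % 7 = 1 ∨ N % 7 = 2 ∨ N % 7 = 4) ∧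
  ∀ p : ℕ, p.Prime → (p : ℤ) ∣ N → p ≠ 3 ∧
    ((p.Prime ∧ p % 8 = 1 ∧ (p % 7 = 1 ∨ p % 7 = 2 ∨ p % 7 = 4)) ∨
      (p.Prime ∧ (p % 8 = 3 ∨ p % 8 = 5) ∧ (p % 7 = 3 ∨ p % 7 = 5 ∨ p % 7 = 6)))

/-- the two classes -/
def Adm (c : Bool) (N : ℤ) : Prop := if c = true then Class49 N else Class14 N

open Classical in
/-- The identity plus the Laplacian of the subgraph of `G` induced on `T`, modulo two. Its determinant is
the number of the rooted spanning forests of this subgraph modulo two. -/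
noncomputable def forest (G : SimpleGraph ℕ) (T : Finset ℕ) : Matrix T T (ZMod 2) :=
  Matrix.of fun i j => if i = j then 1 + ((T.filter fun l => G.Adj i l).card : ZMod 2)
    else if G.Adj i j then 1 else 0

/-- the symmetric difference of the sets `T j`, `j ∈ J`: the elements which belong to an odd number of
them -/
def symm {ι : Type} (T : ι → Finset ℕ) (J : Finset ι) : Finset ℕ :=
  (J.biUnion T).filter fun i => Odd (J.filter fun j => i ∈ T j).card

/-- `K = ℚ(√d_1, …, √d_t)` -/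
def IsMultiquadratic {t : ℕ} (d : Fin t → ℤ) (K : Type) [Field K] [NumberField K] : Prop :=
  ∃ x : Fin t → K, (∀ i, x i ^ 2 = (d i : K)) ∧ IntermediateField.adjoin ℚ (Set.range x) = ⊤

/-- the number `q_v` of elements of the residue field of a finite place `v` of `K` -/
noncomputable def qv (K : Type) [Field K] (v : HeightOneSpectrum (𝓞 K)) : ℕ :=
  Nat.card (𝓞 K ⧸ v.asIdeal)

/-- `a_v = q_v + 1 - #E(k_v)` for `E : y² = x³ + a x + b`, that is `q_v` minus the number of affine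
points -/
noncomputable def av (K : Type) [Field K] (a b : ℤ) (v : HeightOneSpectrum (𝓞 K)) : ℤ :=
  (qv K v : ℤ) - Nat.card {z : (𝓞 K ⧸ v.asIdeal) × (𝓞 K ⧸ v.asIdeal) //
    z.2 ^ 2 = z.1 ^ 3 + (a : 𝓞 K ⧸ v.asIdeal) * z.1 + (b : 𝓞 K ⧸ v.asIdeal)}

open Classical in
/-- `F` is entire and is, for `Re s > 3/2`, the `L`-function of `E : y² = x³ + a x + b` over `K`
without the Euler factors at the places `v ∣ 2 (4a³ + 27b²) m` -/
def IsL (K : Type) [Field K] (a b m : ℤ) (F : ℂ → ℂ) : Prop :=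
  Differentiable ℂ F ∧ ∀ s : ℂ, (3 : ℝ) / 2 < s.re →
    HasProd (fun v : HeightOneSpectrum (𝓞 K) =>
      if ((2 * (4 * a ^ 3 + 27 * b ^ 2) * m : ℤ) : 𝓞 K) ∈ v.asIdeal then 1 else
        (1 - (av K a b v : ℂ) * (qv K v : ℂ) ^ (-s) + (qv K v : ℂ) ^ (1 - 2 * s))⁻¹) (F s)

/-- Central order zero: the `L`-function of `y² = x³ + a x + b` over `K` exists as an entire function, and
it does not vanish at `s = 1`. -/
def OrderZero (K : Type) [Field K] (a b m : ℤ) : Prop :=
  (∃ F : ℂ → ℂ, IsL K a b m F) ∧ ∀ F : ℂ → ℂ, IsL K a b m F → F 1 ≠ 0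

/-- central order zero for the twist `E_N` over `K`, finiteness of `E_N(K)` and of the 2-primary part of
`Ш(E_N/K)`, with the exponent `2 ^ t` -/
def Good (K : Type) [Field K] [NumberField K] (c : Bool) (N m : ℤ) (t : ℕ) : Prop :=
  OrderZero K (A c N) (B c N) m ∧ Finite (E K c N).toAffine.Point ∧
  {y : Pool.Agent.TH841.NF.D.Sha (E K c N) | ∃ j : ℕ, (2 ^ j : ℕ) • y = 0}.Finite ∧
  ∀ (j : ℕ) (y : Pool.Agent.TH841.NF.D.Sha (E K c N)), (2 ^ j : ℕ) • y = 0 → (2 ^ t : ℕ) • y = 0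

section proof

open Pool.Agent.R494.FG (GA exists_map odds oddsN_map prod_odds)

lemma rz_iff (c : Bool) (N : ℤ) : RankZeroShaTwo c N ↔
    Pool.Agent.Results.MP_32c55d_nt.InfiniteGraphFields.RankZeroShaTwo c N := Iff.rfl

lemma adm_iff (c : Bool) (N : ℤ) : Adm c N ↔
    Pool.Agent.Results.MP_32c55d_nt.InfiniteGraphFields.Adm c N := Iff.rfl

open Finset in
/-- the product over a symmetric difference -/
theorem prod_symmDiff (S U : Finset ℕ) (p : ℕ → ℤ) :
    (∏ i ∈ S, p i) * ∏ i ∈ U, p i = (∏ i ∈ symmDiff S U, p i) * (∏ i ∈ S ∩ U, p i) ^ 2 := by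
  have h1 : ∏ i ∈ S, p i = (∏ i ∈ S \ U, p i) * ∏ i ∈ S ∩ U, p i := by
    rw [← prod_union (by
      rw [disjoint_left]
      intro x hx hy
      exact (mem_sdiff.1 hx).2 (mem_inter.1 hy).2)]
    congr 1
    ext x
    simp only [mem_union, mem_sdiff, mem_inter]
    tauto
  have h2 : ∏ i ∈ U, p i = (∏ i ∈ U \ S, p i) * ∏ i ∈ S ∩ U, p i := by
    rw [← prod_union (by
      rw [disjoint_left]
      intro x hx hy
      exact (mem_sdiff.1 hx).2 (mem_inter.1 hy).1)]
    congr 1
    ext x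
    simp only [mem_union, mem_sdiff, mem_inter]
    tauto
  have h3 : ∏ i ∈ symmDiff S U, p i = (∏ i ∈ S \ U, p i) * ∏ i ∈ U \ S, p i := by
    rw [← prod_union (by
      rw [disjoint_left]
      intro x hx hy
      exact (mem_sdiff.1 hx).2 (mem_sdiff.1 hy).1)]
    rfl
  rw [h1, h2, h3]
  ring

/-- the numbers of the twists -/
theorem ga {p : ℕ → ℕ} (hpp : ∀ i, (p i).Prime) {c : Bool} {N : ℤ} (S : Finset ℕ) {n : ℕ}
    (T : Fin n → Finset ℕ)
    (h : ∀ J : Finset (Fin n), Adm c (N * ∏ i ∈ symmDiff S (symm T J), (p i : ℤ)) ∧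
      RankZeroShaTwo c (N * ∏ i ∈ symmDiff S (symm T J), (p i : ℤ))) (J : Finset (Fin n)) :
    GA c (N * (∏ i ∈ S, (p i : ℤ)) * ∏ j ∈ J, ∏ i ∈ T j, (p i : ℤ)) := by
  classical
  obtain ⟨k, T', hT'⟩ := exists_map T
  obtain rfl : T = fun j => (T' j).map Fin.valEmbedding := funext hT'
  have e1 : symm (fun j => (T' j).map Fin.valEmbedding) J = (odds T' J).map Fin.valEmbedding :=
    oddsN_map T' J
  have e2 : ∀ A : Finset (Fin k), ∏ i ∈ A.map Fin.valEmbedding, (p i : ℤ) =
      ∏ i ∈ A, (p (i : ℕ) : ℤ) := fun A => Finset.prod_map _ _ _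
  obtain ⟨s, hs, he⟩ : ∃ s : ℤ, s ≠ 0 ∧ ∏ j ∈ J, ∏ i ∈ (T' j).map Fin.valEmbedding, (p i : ℤ) =
      (∏ i ∈ symm (fun j => (T' j).map Fin.valEmbedding) J, (p i : ℤ)) * s ^ 2 := by
    simp only [e1, e2]
    exact ⟨_, Finset.prod_ne_zero_iff.2 fun i _ =>
      pow_ne_zero _ (by exact_mod_cast (hpp i).ne_zero), prod_odds T' J fun i => (p (i : ℕ) : ℤ)⟩
  have h1 := prod_symmDiff S (symm (fun j => (T' j).map Fin.valEmbedding) J) fun i => (p i : ℤ)
  have e3 : N * (∏ i ∈ S, (p i : ℤ)) * ∏ j ∈ J, ∏ i ∈ (T' j).map Fin.valEmbedding, (p i : ℤ) =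
      (N * ∏ i ∈ symmDiff S (symm (fun j => (T' j).map Fin.valEmbedding) J), (p i : ℤ)) *
        ((∏ i ∈ S ∩ symm (fun j => (T' j).map Fin.valEmbedding) J, (p i : ℤ)) * s) ^ 2 := by
    rw [he]
    linear_combination N * s ^ 2 * h1
  rw [e3]
  refine Pool.Agent.Results.MP_cd906c_nt.FieldsFromGraphs.ga_of (h J).1 (h J).2 _
    (mul_ne_zero (Finset.prod_ne_zero_iff.2 fun i _ => by exact_mod_cast (hpp i).ne_zero) hs)

/-- independent sets -/
theorem ind {p : ℕ → ℕ} (hp : StrictMono p) (hpp : ∀ i, (p i).Prime) {n : ℕ}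
    (T : Fin n → Finset ℕ) (hT : ∀ J : Finset (Fin n), J.Nonempty → (symm T J).Nonempty)
    (J : Finset (Fin n)) (hJ : J.Nonempty) : ¬ IsSquare (∏ j ∈ J, ∏ i ∈ T j, (p i : ℤ)) := by
  obtain ⟨k, T', hT'⟩ := exists_map T
  obtain rfl : T = fun j => (T' j).map Fin.valEmbedding := funext hT'
  have e2 : ∀ A : Finset (Fin k), ∏ i ∈ A.map Fin.valEmbedding, (p i : ℤ) =
    ∏ i ∈ A, (p (i : ℕ) : ℤ) := fun A => Finset.prod_map _ _ _
  simp only [e2]
  rw [prod_odds T' J fun i => (p (i : ℕ) : ℤ)]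
  refine Pool.Agent.Results.MP_cd906c_nt.FieldsFromGraphs.not_sq (p := fun i : Fin k => p i)
    (fun a b h => Fin.ext (hp.injective h)) (fun i => hpp i) ?_ (Finset.prod_ne_zero_iff.2 fun i _ =>
    pow_ne_zero _ (by exact_mod_cast (hpp i).ne_zero))
  have h4 := hT J hJ
  rw [show symm (fun j => (T' j).map Fin.valEmbedding) J = (odds T' J).map Fin.valEmbedding from
    oddsN_map T' J, Finset.map_nonempty] at h4
  exact h4

/-- one field -/
theorem main {n : ℕ} {d : Fin n → ℤ} (c : Bool) (N : ℤ)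
    (hd : ∀ J : Finset (Fin n), J.Nonempty → ¬ IsSquare (∏ j ∈ J, d j))
    (h : ∀ J : Finset (Fin n), GA c (N * ∏ j ∈ J, d j))
    (K : Type) [Field K] [NumberField K] (hK : IsMultiquadratic d K) :
    Module.finrank ℚ K = 2 ^ n ∧ Good K c N (∏ t, d t) n := by
  obtain ⟨x, hx, hgen⟩ := hK
  refine ⟨Pool.Agent.R494.FG.degree hd K x hx hgen, ?_⟩
  obtain ⟨⟨F, hF, hF1⟩, h2⟩ := Pool.Agent.R494.FG.field c hd h K x hx hgen
  have h3 := Pool.Agent.R494.FG.shaK c h K x hx hgen
  refine ⟨⟨⟨F, hF⟩, fun F' hF' => ?_⟩, h2, h3⟩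
  have h4 : F' = F := Pool.Agent.Y687.MQ.isLFunK_unique hF' hF
  rw [h4]
  exact hF1

/-- the graph without edges -/
theorem forest_bot (T : Finset ℕ) : (forest ⊥ T).det = 1 := by
  classical
  have h : forest ⊥ T = 1 := by
    ext i j
    unfold forest
    rw [Matrix.of_apply, Matrix.one_apply]
    by_cases hij : i = j
    · rw [if_pos hij, if_pos hij]
      simp
    · rw [if_neg hij, if_neg hij]
      simp
  rw [h, Matrix.det_one]

end proof

open Classical in
/-- **Quadratic characters over multiquadratic fields with central order zero and any residue graph.** -/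
theorem result (𝒩 : Finset (Bool × ℤ)) (h𝒩 : ∀ e ∈ 𝒩, Adm e.1 e.2 ∧ RankZeroShaTwo e.1 e.2)
    (m r : ℕ) (hm : 0 < m) (h56 : 56 ∣ m) (h𝒩m : ∀ e ∈ 𝒩, e.2 ∣ (m : ℤ)) (hr : r.Coprime m)
    (hr8 : r % 8 = 1) (hr7 : r % 7 = 1 ∨ r % 7 = 2 ∨ r % 7 = 4)
    (hr𝒩 : ∀ e ∈ 𝒩, ∀ l : ℕ, l.Prime → (l : ℤ) ∣ e.2 → IsSquare ((r : ℕ) : ZMod l))
    (g : ℕ → ℕ) (hg : Filter.Tendsto g .atTop .atTop)
    (t : ℕ → ℕ) (ht0 : t 0 = 0) (ht : StrictMono t) (G : SimpleGraph ℕ)
    (hG : ∀ j, ∀ i < t j, ∀ x y, t j ≤ x → x < t (j + 1) → t j ≤ y → y < t (j + 1) →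
      (G.Adj i x ↔ G.Adj i y)) :
    ∃ q q' : ℕ, (q.Prime ∧ ¬ q ∣ m) ∧ (q'.Prime ∧ ¬ q' ∣ m) ∧ ∃ M : Bool → ℤ,
      (M false = 1 ∨ M false = -q) ∧ (M true = 1 ∨ M true = q') ∧
      ∃ p : ℕ → ℕ, StrictMono p ∧ (∀ i, (p i).Prime ∧ p i ≡ r [MOD m]) ∧
        (∀ i j, i ≠ j → (G.Adj i j ↔ ¬ IsSquare ((p j : ℕ) : ZMod (p i)))) ∧
        (∀ j i, t j ≤ i → i < t (j + 1) → p i ≤ p (t j) + g (p (t j))) ∧
        (∀ e ∈ 𝒩, ∀ (S : Finset ℕ) (n : ℕ) (T : Fin n → Finset ℕ),
          (∀ J : Finset (Fin n), J.Nonempty → (symm T J).Nonempty) →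
          ((∀ J : Finset (Fin n), RankZeroShaTwo e.1
              (e.2 * M e.1 * ∏ l ∈ symmDiff S (symm T J), (p l : ℤ))) ↔
            ∀ J : Finset (Fin n), (forest G (symmDiff S (symm T J))).det ≠ 0) ∧
          ((∀ J : Finset (Fin n), (forest G (symmDiff S (symm T J))).det ≠ 0) →
            ∀ (K : Type) [Field K] [NumberField K],
              IsMultiquadratic (fun j => ∏ i ∈ T j, (p i : ℤ)) K → Module.finrank ℚ K = 2 ^ n ∧
              Good K e.1 (e.2 * M e.1 * ∏ l ∈ S, (p l : ℤ)) (∏ j, ∏ i ∈ T j, (p i : ℤ)) n)) ∧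
        (G = ⊥ → ∀ (n : ℕ) (T : Fin n → Finset ℕ),
          (∀ J : Finset (Fin n), J.Nonempty → (symm T J).Nonempty) →
          ∀ (K : Type) [Field K] [NumberField K],
            IsMultiquadratic (fun j => ∏ i ∈ T j, (p i : ℤ)) K → Module.finrank ℚ K = 2 ^ n ∧
            ∀ e ∈ 𝒩, ∀ S : Finset ℕ,
              Good K e.1 (e.2 * M e.1 * ∏ l ∈ S, (p l : ℤ)) (∏ j, ∏ i ∈ T j, (p i : ℤ)) n) := by
  obtain ⟨q, q', hq, hq', M, hM, hM', p, hp, h1, h2, h3, h4⟩ :=
    Pool.Agent.R494.FG.core 𝒩 (fun e he => (h𝒩 e he).1) m r hm h56 h𝒩m hr hr8 hr7 hr𝒩 g hg t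
      ht0 ht G hG
  have h0 : ∀ e ∈ 𝒩, ∀ (S : Finset ℕ) (n : ℕ) (T : Fin n → Finset ℕ),
      (∀ J : Finset (Fin n), J.Nonempty → (symm T J).Nonempty) →
      (∀ J : Finset (Fin n), (forest G (symmDiff S (symm T J))).det ≠ 0) →
      ∀ (K : Type) [Field K] [NumberField K],
        IsMultiquadratic (fun j => ∏ i ∈ T j, (p i : ℤ)) K → Module.finrank ℚ K = 2 ^ n ∧
        Good K e.1 (e.2 * M e.1 * ∏ l ∈ S, (p l : ℤ)) (∏ j, ∏ i ∈ T j, (p i : ℤ)) n := by
    intro e he S n T hT hdet K _ _ hK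
    refine main e.1 (e.2 * M e.1 * ∏ l ∈ S, (p l : ℤ)) (ind hp (fun i => (h1 i).1) T hT)
      (fun J => ?_) K hK
    refine ga (fun i => (h1 i).1) S T (fun J => ?_) J
    obtain ⟨h5, h6⟩ := h4 e he (symmDiff S (symm T J))
    exact ⟨h5, h6.2 ⟨(h𝒩 _ he).2, hdet J⟩⟩
  refine ⟨q, q', hq, hq', M, hM, hM', p, hp, h1, h2, h3, fun e he S n T hT => ⟨?_, h0 e he S n T hT⟩, ?_⟩
  · refine forall_congr' fun J => ?_
    have h5 := (h4 e he (symmDiff S (symm T J))).2
    rw [rz_iff, h5]
    exact ⟨fun h => h.2, fun h => ⟨(h𝒩 _ he).2, h⟩⟩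
  · rintro rfl n T hT K _ _ hK
    have hdet : ∀ T : Finset ℕ, (forest ⊥ T).det ≠ 0 := fun T => by
      rw [forest_bot]
      exact one_ne_zero
    refine ⟨?_, fun e he S => (h0 e he S n T hT (fun J => hdet _) K hK).2⟩
    obtain ⟨x, hx, hgen⟩ := hK
    exact Pool.Agent.R494.FG.degree (ind hp (fun i => (h1 i).1) T hT) K x hx hgen

end Pool.Agent.Results.MP_50bb2e_nt.GraphCharacters
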