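import Pool.Agent.R425.T.Gen

/-!
# Central order zero in every group of characters, for several newforms with arbitrary coefficients

`f_1, …, f_m` are newforms of weight two for `Γ₀(N_i)`, with trivial character; their coefficient fields
are arbitrary totally real number fields, so that the associated abelian varieties over `ℚ` have any
dimension.  We assume `L(f_i, 1) ≠ 0` for all `i`.  Let `l` be a prime and `λ` a prime ideal above `l` of
the ring of all algebraic integers.  A prime `q` is admissible if `q ∤ N_i` and `a_q(f_i)` is not congruent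
to `2` modulo `λ`, for all `i` (for `l = 2`: `a_q(f_i)` is a unit at `λ`).

Theorem: let `H` be any group of Dirichlet characters of order dividing `l ^ n` and of squarefree
conductors composed of admissible primes; for `l = 2`, `n = 1` these are quadratic characters.  Fix a finite
set `Z` of primes that do not divide the conductors.

(1) If `H` is infinite, it has an infinite subgroup `H'` such that for all `χ` in `H'`: `L(f_i ⊗ χ, s)` has
order `0` at the centre `s = 1` for all `i`, and `χ` is even with `χ(p) = 1` for `p` in `Z` (so `χ` is trivial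
at the places in `Z` and at infinity).

(2) For a proportion at least `2 ^ (-V)` of the `r`-tuples in `H` the same holds for all the elements of
the group generated by the tuple; `V` depends on `n`, `r`, `Z` and the `f_i`, but not on `H`.

The proof: the modular symbols of the `f_i` generate a finitely generated module over a ring that
contains the roots of unity of order `l ^ n`; in the quotient by a power of a prime above `l` the
twisted symbols of the characters of `H` satisfy relations of Hecke at the admissible primes.  This is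
the method of the starting files `Y18/LP`, where it was applied to elliptic curves.  New here: the
newforms have arbitrary coefficients, the local conditions, and the central value as the modular symbol
without reference to an elliptic curve.
-/

set_option autoImplicit false

open Complex UpperHalfPlane MatrixGroups CongruenceSubgroup

namespace Pool.Agent.Results.MP_50bb2e_nt.GroupsOfCharacters

/-- The families `c = (c_q)` of characters `c_q` of the groups `(ℤ/q)ˣ`.  The family with `c_q = 1`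
except for the primes `q` of a finite set stands for the Dirichlet character `χ_c = ∏ c_q` of
squarefree conductor; this is an isomorphism of groups. -/
abbrev Fam : Type := (q : ℕ) → (ZMod q)ˣ →* ℂˣ

open Classical in
/-- The set of the `q` with `c_q ≠ 1` (if it is finite). -/
noncomputable def supp (c : Fam) : Finset ℕ :=
  if h : {q | c q ≠ 1}.Finite then h.toFinset else ∅

/-- The conductor of `χ_c`. -/
noncomputable def conductor (c : Fam) : ℕ := ∏ q ∈ supp c, q

/-- The value `χ_c(m)`. -/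
noncomputable def value (c : Fam) (m : ℕ) : ℂ :=
  ∏ q ∈ supp c, if h : m.Coprime q then (c q (ZMod.unitOfCoprime m h) : ℂ) else 0

/-- The value `χ_c(-1)`. -/
noncomputable def parity (c : Fam) : ℂ := ∏ q ∈ supp c, ((c q (-1) : ℂˣ) : ℂ)

/-- The `n`-th Fourier coefficient of `f`. -/
noncomputable def coef {N : ℕ} (f : CuspForm (Gamma0 N : Subgroup (GL (Fin 2) ℝ)) 2) (n : ℕ) : ℂ :=
  (qExpansion 1 f).coeff n

/-- `f ∈ S_2(Γ₀(N))` is a newform, by its standard properties: the Fourier coefficients `a_n` of `f` are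
real with `a_1 = 1`, they satisfy the Hecke relations `a_(mn) = a_m a_n` for coprime `m`, `n` and
`a_(p^(j+2)) = a_p a_(p^(j+1)) - p a_(p^j)` (without the last term if `p ∣ N`) and the bounds
`|a_p| ≤ 2√p` for `p ∤ N`, `|a_p| ≤ 1` for `p ∣ N`; `f` is an eigenfunction of the Fricke involution:
`f(-1/(Nτ)) = -w N τ² f(τ)` with `w = ±1`. -/
structure IsNewform {N : ℕ} (f : CuspForm (Gamma0 N : Subgroup (GL (Fin 2) ℝ)) 2) : Prop where
  one : coef f 1 = 1
  real : ∀ n, (coef f n).im = 0
  mul : ∀ m n : ℕ, Nat.Coprime m n → coef f (m * n) = coef f m * coef f n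
  pow : ∀ p j : ℕ, p.Prime → coef f (p ^ (j + 2)) = coef f p * coef f (p ^ (j + 1)) -
      (if p ∣ N then 0 else (p : ℂ) * coef f (p ^ j))
  good : ∀ p : ℕ, p.Prime → ¬ p ∣ N → ‖coef f p‖ ≤ 2 * Real.sqrt p
  bad : ∀ p : ℕ, p.Prime → p ∣ N → ‖coef f p‖ ≤ 1
  fricke : ∃ w : ℝ, (w = 1 ∨ w = -1) ∧ ∀ τ τ' : ℍ, (τ' : ℂ) * ((N : ℂ) * (τ : ℂ)) = -1 →
    f τ' = -(w : ℂ) * (N : ℂ) * (τ : ℂ) ^ 2 * f τ

/-- The Euler factor at `p` of `L(f ⊗ χ, s)`, where `χ(p) = z`:
`(1 - z a_p p^(-s) + z² p^(1-2s))⁻¹`, without the last term if `p ∣ N`. -/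
noncomputable def euler {N : ℕ} (f : CuspForm (Gamma0 N : Subgroup (GL (Fin 2) ℝ)) 2) (z s : ℂ)
    (p : ℕ) : ℂ :=
  (1 - z * coef f p * (p : ℂ) ^ (-s) +
    z ^ 2 * ((if p ∣ N then 0 else (p : ℂ)) * ((p : ℂ) ^ (-s)) ^ 2))⁻¹

/-- The `L`-function of `f ⊗ χ_c` is entire, and its order at the centre `s = 1` is zero. -/
def OrderZero {N : ℕ} (f : CuspForm (Gamma0 N : Subgroup (GL (Fin 2) ℝ)) 2) (c : Fam) : Prop :=
  ∃ L : ℂ → ℂ, Differentiable ℂ L ∧
    (∀ s : ℂ, 3 / 2 < s.re → HasProd (fun p : Nat.Primes => euler f (value c p) s p) (L s)) ∧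
    analyticOrderAt L 1 = 0

/-- `H` is a group of Dirichlet characters of order dividing `e` and of squarefree conductors composed of
admissible primes `q`, which are not in `Z`: `q ∤ N_i` and `a_q(f_i) - 2` is not in `λ`, for all `i`. -/
structure IsCharGroup {m : ℕ} {N : Fin m → ℕ}
    (f : (i : Fin m) → CuspForm (Gamma0 (N i) : Subgroup (GL (Fin 2) ℝ)) 2)
    (lam : Ideal (integralClosure ℤ ℂ)) (Z : Finset ℕ) (e : ℕ) (H : Subgroup Fam) : Prop where
  pow : ∀ c ∈ H, c ^ e = 1
  finite : ∀ c ∈ H, {q | c q ≠ 1}.Finite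
  admissible : ∀ c ∈ H, ∀ q, c q ≠ 1 → q.Prime ∧ q ∉ Z ∧
    ∀ i, ¬ q ∣ N i ∧ ∀ x ∈ lam, (x : ℂ) ≠ coef (f i) q - 2

/-- `χ_c` is trivial at infinity and at the primes in `Z`, and the central order of all the `f_i ⊗ χ_c` is
zero. -/
def Good {m : ℕ} {N : Fin m → ℕ}
    (f : (i : Fin m) → CuspForm (Gamma0 (N i) : Subgroup (GL (Fin 2) ℝ)) 2) (Z : Finset ℕ) (c : Fam) :
    Prop :=
  (∀ p ∈ Z, value c p = 1) ∧ parity c = 1 ∧ ∀ i, OrderZero (f i) c

/-- The set of the `r`-tuples of elements of `H`. -/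
def Tuples (H : Subgroup Fam) (r : ℕ) : Set (Fin r → Fam) := {c | ∀ j, c j ∈ H}

/-- The property `P` holds for a proportion at least `2 ^ (-V)` of the `r`-tuples in `H`: there is a set
`K` of at most `2 ^ V` tuples in `H` such that every tuple in `H` can be multiplied by an element of `K`
so that the product has the property `P`; so the proportion of the tuples with `P` is at least
`2 ^ (-V)` if `H` is finite, and if `H` is infinite, the number of the tuples with product of the
conductors at most `X` is at most `2 ^ V` times the number of the tuples with `P` and with product of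
the conductors at most `C X`, `C` independent of `X`. -/
def ManyTuples (V : ℕ) (H : Subgroup Fam) (r : ℕ) (P : (Fin r → Fam) → Prop) : Prop :=
  (∃ K : Finset (Fin r → Fam), K.card ≤ 2 ^ V ∧ (K : Set (Fin r → Fam)) ⊆ Tuples H r ∧
    ∀ c ∈ Tuples H r, ∃ k ∈ K, P (fun j => c j * k j)) ∧
  ((H : Set Fam).Finite → (Tuples H r).ncard ≤ 2 ^ V * {c | c ∈ Tuples H r ∧ P c}.ncard) ∧
  ∃ C : ℕ, ∀ X : ℕ, {c | c ∈ Tuples H r ∧ ∏ j, conductor (c j) ≤ X}.ncard ≤
    2 ^ V * {c | (c ∈ Tuples H r ∧ P c) ∧ ∏ j, conductor (c j) ≤ C * X}.ncard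

/-- **Theorem.** Let `f_1, …, f_m` be newforms of weight two with trivial character and arbitrary
(totally real) coefficient fields, with `L(f_i, 1) ≠ 0`. Let `l` be a prime, `λ` a prime ideal above `l`
of the ring of algebraic integers, `Z` a finite set of primes. Let `n` be given, and let `H` denote any
group of Dirichlet characters of order dividing `l ^ n` and of squarefree conductors composed of
primes `q` not in `Z`, `q ∤ N_i`, with `a_q(f_i)` not congruent to `2` modulo `λ`, for all `i`.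

(1) Every infinite `H` has an infinite subgroup `H'` such that for all `χ` in `H'` and all `i` the central
order of `f_i ⊗ χ` is zero, and `χ` is trivial at infinity and at the primes in `Z`.

(2) For every `r` there is `V`, independent of `H`, such that for a proportion at least `2 ^ (-V)` of the
`r`-tuples in `H` the same holds for all the characters in the group generated by the tuple. -/
theorem result (m : ℕ) (N : Fin m → ℕ)
    (f : (i : Fin m) → CuspForm (Gamma0 (N i) : Subgroup (GL (Fin 2) ℝ)) 2)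
    (hN : ∀ i, N i ≠ 0) (hf : ∀ i, IsNewform (f i)) (h0 : ∀ i, OrderZero (f i) 1)
    (l : ℕ) (hl : l.Prime) (lam : Ideal (integralClosure ℤ ℂ)) (hlam : lam.IsPrime)
    (hmem : (l : integralClosure ℤ ℂ) ∈ lam) (Z : Finset ℕ) (hZ : ∀ p ∈ Z, p.Prime) (n : ℕ) :
    (∀ H : Subgroup Fam, IsCharGroup f lam Z (l ^ n) H → (H : Set Fam).Infinite →
      ∃ H' : Subgroup Fam, H' ≤ H ∧ (H' : Set Fam).Infinite ∧ ∀ c ∈ H', Good f Z c) ∧
    ∀ r : ℕ, ∃ V : ℕ, ∀ H : Subgroup Fam, IsCharGroup f lam Z (l ^ n) H →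
      ManyTuples V H r (fun c => ∀ J : Fin r → ℕ, Good f Z (∏ j, c j ^ J j)) := by
  have : ∀ i, NeZero (N i) := fun i => ⟨hN i⟩
  have hrel : ∀ i, Pool.Agent.Y18.BSD.HRel (f i) := fun i => ⟨(hf i).one, (hf i).mul, (hf i).pow⟩
  have hc : ∀ i, Pool.Agent.Y18.BSD.Cf (N i) (Pool.Agent.Y18.BSD.co (f i)) := fun i =>
    ⟨W388.coeff_zero (f i), (hf i).one, (hf i).real, (hf i).mul, (hf i).pow, (hf i).good, (hf i).bad⟩
  have hnew : ∀ i, ∃ w : ℝ, W388.IsNewf (N i) 2 (f i) w ∧ Pool.Agent.TH940.Fr (f i) (w : ℂ) := by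
    intro i
    exact Pool.Agent.R425.T.newf_of (hf i).one (hf i).real (hf i).mul (hf i).pow (hf i).fricke
  choose w hnf hfr using hnew
  have hbv : ∀ i, Pool.Agent.Y18.BSD.bv (f i) 0 ≠ 0 := by
    intro i
    obtain ⟨L, h1, h2, h3⟩ := h0 i
    have h4 : L 1 ≠ 0 := by
      rcases analyticOrderAt_eq_zero.1 h3 with h5 | h5
      · exact absurd (h1.analyticAt 1) h5
      · exact h5
    refine Pool.Agent.R425.T.bv_ne (hnf i) (hfr i) (hc i) h1 (fun s hs => ?_) h4
    refine (congrArg (fun g => HasProd g (L s)) (funext fun p : Nat.Primes => ?_)).mp (h2 s hs)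
    have h5 : value 1 (p : ℕ) = 1 := by
      have h6 : supp (1 : Fam) = ∅ := by
        unfold supp
        have h7 : {q : ℕ | (1 : Fam) q ≠ 1} = ∅ := by
          ext q; simp
        have h8 : ({q : ℕ | (1 : Fam) q ≠ 1}).Finite := by rw [h7]; exact Set.finite_empty
        rw [dif_pos h8]
        ext q
        simp
      unfold value
      rw [h6, Finset.prod_empty]
    rw [h5]
    rfl
  have hZ0 : (0 : ℕ) ∉ Z := fun h => Nat.not_prime_zero (hZ 0 h)
  have hOk : ∀ H : Subgroup Fam, IsCharGroup f lam Z (l ^ n) H →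
      Pool.Agent.Y18.LP.Ok H (l ^ n)
        (Pool.Agent.Y18.LP.AdS N (fun i => Pool.Agent.Y18.BSD.co (f i)) lam) ∧
      ∀ p ∈ Z, ∀ c ∈ H, ∀ q, c q ≠ 1 → p.Coprime q := by
    intro H hH
    refine ⟨⟨hH.pow, hH.finite, fun c hc q hq => ?_⟩, fun p hp c hc q hq => ?_⟩
    · obtain ⟨h1, -, h2⟩ := hH.admissible c hc q hq
      exact ⟨h1, h2⟩
    · obtain ⟨h1, h2, -⟩ := hH.admissible c hc q hq
      rw [Nat.coprime_primes (hZ p hp) h1]
      rintro rfl
      exact h2 hp
  have hgood : ∀ c : Fam, ((∀ p ∈ Z, Pool.Agent.Y18.LP.cvl c p = 1) ∧ Pool.Agent.R425.T.par c = 1 ∧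
      ∀ i, Pool.Agent.R425.T.TwNe (f i) c) → Good f Z c := by
    rintro c ⟨h1, h2, h3⟩
    refine ⟨h1, h2, fun i => ?_⟩
    obtain ⟨G, h4, h5, h6⟩ := h3 i
    exact ⟨G, h4, h5, analyticOrderAt_eq_zero.2 (Or.inr h6)⟩
  refine ⟨fun H hH hinf => ?_, fun r => ?_⟩
  · obtain ⟨h1, h2⟩ := hOk H hH
    obtain ⟨H', h3, h4, h5⟩ := Pool.Agent.R425.T.gen_infinite hnf hfr hc hrel hbv hl n lam hlam hmem Z
      hZ0 H h1 h2 hinf
    exact ⟨H', h3, h4, fun c hc => hgood c (h5 c hc)⟩
  · obtain ⟨V, hV⟩ := Pool.Agent.R425.T.gen_tuples hnf hfr hc hrel hbv hl n lam hlam hmem Z hZ0 r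
    refine ⟨V, fun H hH => ?_⟩
    obtain ⟨h1, h2⟩ := hOk H hH
    obtain ⟨K, h3, h4, h5⟩ := hV H h1 h2
    have h6 : ∀ c : Fin r → Fam, (∀ j, c j ∈ H) → ∃ k ∈ K,
        (fun c : Fin r → Fam => ∀ J : Fin r → ℕ, Good f Z (∏ j, c j ^ J j))
          (fun j => c j * k j) := by
      intro c hc
      obtain ⟨k, hk, h7⟩ := h5 c hc
      exact ⟨k, hk, fun J => hgood _ (h7 J)⟩
    refine ⟨⟨K, h3, fun k hk => h4 k hk, h6⟩, ?_⟩
    exact Pool.Agent.R901.EC.many_tuples hH.finite (fun c hc q hq => (hH.admissible c hc q hq).1) K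
      h3 h4 h6

end Pool.Agent.Results.MP_50bb2e_nt.GroupsOfCharacters
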