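import Pool.Agent.R901.RT.Main

/-!
# Nonvanishing of a uniform proportion of the twists of a base change, in every group of twists

`F_0` is an abelian number field of squarefree conductor, given by the finite group `C` of its
Dirichlet characters.  `E_1, …, E_m` are elliptic curves over `ℚ`, `E_i : y² = x³ + a_i x + b_i`, with
newforms `f_i` of levels `N_i` prime to the conductor of `F_0`, such that `L(E_i/F_0, 1) ≠ 0` for all
`i`; that is, the base change `π_i` of `f_i` to `GL₂` over `F_0` has central order `0`.  Let a prime `l`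
and `n` be given.  A prime `q` is admissible if `q ∤ 2 Δ_i`, `q` is unramified in `F_0`, and the number
of the points of `E_i` over the residue field of `F_0` at `q` is not divisible by `l`, for all `i`.

Theorem: for each `r` there is a number `V` such that for every group `H`, finite or infinite and as
sparse as one likes, of Dirichlet characters of order dividing `l ^ n` and of squarefree conductors
composed of admissible primes, a proportion at least `2 ^ (-V)` of the `r`-tuples `(χ_1, …, χ_r)` in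
`H` has the property that for all `i` and all number fields `F` contained in the composite of `F_0` and
the abelian field attached to the group generated by `χ_1, …, χ_r` the `L`-function
`L(E_i/F, s)` is entire and of order zero at `s = 1`.

For `l = 2`, `n = 1`, `r = 1` the characters are the `χ_D` with the `D` in a group of fundamental
discriminants, and the fields `F` include `F_0(√D)`, for which
`L(E_i/F, s + 1/2) = L(s, π_i) L(s, π_i ⊗ χ)` with the quadratic character `χ = χ_D ∘ Norm` over `F_0`; so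
the twist of `π_i` by the quadratic character `χ` over `F_0` has central order `0` for all `i` and for a
uniform positive proportion of the `D` in every such group.

The proof.  `L(E_i/F_0, 1) ≠ 0` means that the sums of modular symbols attached to the twists of `f_i` by
the characters `χ` in `C` are not zero.  For `χ` fixed and `c` in `H` the sum attached to `χ c` agrees on
finite sets of the `c`, up to factors which are units modulo a prime ideal above `l`, with combinations of
characters of `H` (new, `R901/RT`; the case `F_0 = ℚ` is in the starting files `Y18/LP`).  Such functions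
which are not zero at one point are not zero at one of `2 ^ V` translates of every point.
-/

set_option autoImplicit false

open Complex UpperHalfPlane MatrixGroups CongruenceSubgroup NumberField IsDedekindDomain

namespace Pool.Agent.Results.MP_50bb2e_nt.RelativeTwists

/-- `N_p`: the number of pairs `(x, y) ∈ (ℤ/p)²` with `y² = x³ + a x + b`. -/
noncomputable def pointCount (a b : ℤ) (p : ℕ) : ℕ :=
  Nat.card {q : ZMod p × ZMod p // q.2 ^ 2 = q.1 ^ 3 + (a : ZMod p) * q.1 + (b : ZMod p)}

/-- `p` is a prime not dividing `2 Δ`, `Δ = -4 a³ - 27 b²`. -/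
def GoodPrime (a b : ℤ) (p : ℕ) : Prop :=
  p.Prime ∧ ¬ ((p : ℤ) ∣ 2 * (-4 * a ^ 3 - 27 * b ^ 2))

/-- The families `c = (c_q)` of characters `c_q` of the groups `(ℤ/q)ˣ`.  The family with `c_q = 1`
except for the primes `q` of a finite set stands for the Dirichlet character `χ_c = ∏ c_q` of
squarefree conductor; this is an isomorphism of groups. -/
abbrev Fam : Type := (q : ℕ) → (ZMod q)ˣ →* ℂˣ

open Classical in
/-- The set of the `q` with `c_q ≠ 1` (if it is finite). -/
noncomputable def supp (c : Fam) : Finset ℕ :=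
  if h : {q | c q ≠ 1}.Finite then h.toFinset else ∅

/-- The conductor of `χ_c`. -/
noncomputable def conductor (c : Fam) : ℕ := ∏ q ∈ supp c, q

/-- The value `χ_c(m)`. -/
noncomputable def value (c : Fam) (m : ℕ) : ℂ :=
  ∏ q ∈ supp c, if h : m.Coprime q then (c q (ZMod.unitOfCoprime m h) : ℂ) else 0

open Classical in
/-- The Gaussian period `∑ exp(2 π i u / M)`, `0 ≤ u < M`, `χ_c(u) = 1`, where `M` is the conductor of
`χ_c`.  It generates the cyclic extension of `ℚ` attached to `χ_c` (the subfield of `ℚ(exp(2 π i / M))`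
fixed by the kernel of `χ_c`; recall that `M` is squarefree). -/
noncomputable def period (c : Fam) : ℂ :=
  ∑ u ∈ (Finset.range (conductor c)).filter (fun u => value c u = 1),
    Complex.exp (2 * Real.pi * Complex.I / (conductor c : ℕ)) ^ u

/-- The abelian extension of `ℚ` in `ℂ` attached to a group of characters. -/
noncomputable def groupField (C : Subgroup Fam) : IntermediateField ℚ ℂ :=
  IntermediateField.adjoin ℚ {x : ℂ | ∃ c ∈ C, x = period c}

/-- The abelian extension of `ℚ` in `ℂ` attached to the group generated by `χ_1, …, χ_r`. -/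
noncomputable def tupleField {r : ℕ} (c : Fin r → Fam) : IntermediateField ℚ ℂ :=
  IntermediateField.adjoin ℚ {x : ℂ | ∃ J : Fin r → ℕ, x = period (∏ j, c j ^ J j)}

/-- `C` is a finite group of Dirichlet characters of squarefree conductors prime to the `N_i`. -/
structure IsBaseGroup {m : ℕ} (N : Fin m → ℕ) (C : Subgroup Fam) : Prop where
  finite : (C : Set Fam).Finite
  supp : ∀ c ∈ C, {q | c q ≠ 1}.Finite
  prime : ∀ c ∈ C, ∀ q, c q ≠ 1 → q.Prime ∧ ∀ i, ¬ q ∣ N i

/-- `q` is a prime, `q ∤ 2 Δ`, the characters in `C` are unramified at `q`, and for some `d ≥ 1` with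
`χ(q) ^ d = 1` for all `χ` in `C` (that is, `d` is a multiple of the degree of the residue fields at `q`
of the field `F_0` attached to `C`) the number of the points (with the point at infinity) of
`E : y² = x³ + a x + b` over the fields with `q ^ d` elements is not divisible by `l`. -/
def Admissible (a b : ℤ) (l : ℕ) (C : Subgroup Fam) (q : ℕ) : Prop :=
  GoodPrime a b q ∧ (∀ χ ∈ C, χ q = 1) ∧ ∃ d : ℕ, 0 < d ∧ (∀ χ ∈ C, value χ q ^ d = 1) ∧
    ∀ (k : Type) [Field k], Nat.card k = q ^ d →
      ¬ l ∣ Nat.card {x : k × k // x.2 ^ 2 = x.1 ^ 3 + (a : k) * x.1 + (b : k)} + 1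

/-- `H` is a group of Dirichlet characters of order dividing `l ^ n` and of squarefree conductors
composed of primes admissible for all the curves. -/
structure IsCharGroup {m : ℕ} (a b : Fin m → ℤ) (l n : ℕ) (C H : Subgroup Fam) : Prop where
  pow : ∀ c ∈ H, c ^ (l ^ n) = 1
  finite : ∀ c ∈ H, {q | c q ≠ 1}.Finite
  admissible : ∀ c ∈ H, ∀ q, c q ≠ 1 → q.Prime ∧ ∀ i, Admissible (a i) (b i) l C q

/-- The `n`-th Fourier coefficient of `f`. -/
noncomputable def coef {N : ℕ} (f : CuspForm (Gamma0 N : Subgroup (GL (Fin 2) ℝ)) 2) (n : ℕ) : ℂ :=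
  (qExpansion 1 f).coeff n

/-- `f ∈ S_2(Γ₀(N))` is the newform of the elliptic curve `E : y² = x³ + a x + b`, with its standard
properties: the Fourier coefficients `c(n)` of `f` are real with `c(1) = 1`, they satisfy the Hecke
relations `c(mn) = c(m) c(n)` for coprime `m`, `n` and `c(p^(j+2)) = c(p) c(p^(j+1)) - p c(p^j)`
(without the last term if `p ∣ N`) and the bounds `|c(p)| ≤ 2√p` for `p ∤ N`, `|c(p)| ≤ 1` for
`p ∣ N`; `f` is an eigenfunction of the Fricke involution: `f(-1/(Nτ)) = -w N τ² f(τ)` with `w = ±1`;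
for all primes `p ∤ 2Δ` one has `p ∤ N` and `c(p) = a_p(E)`.  (Every elliptic curve over `ℚ` has such a
form by the modularity theorem.) -/
structure IsFormOf (a b : ℤ) (N : ℕ) (f : CuspForm (Gamma0 N : Subgroup (GL (Fin 2) ℝ)) 2) :
    Prop where
  one : coef f 1 = 1
  real : ∀ n, (coef f n).im = 0
  mul : ∀ m n : ℕ, Nat.Coprime m n → coef f (m * n) = coef f m * coef f n
  pow : ∀ p j : ℕ, p.Prime → coef f (p ^ (j + 2)) = coef f p * coef f (p ^ (j + 1)) -
      (if p ∣ N then 0 else (p : ℂ) * coef f (p ^ j))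
  good : ∀ p : ℕ, p.Prime → ¬ p ∣ N → ‖coef f p‖ ≤ 2 * Real.sqrt p
  bad : ∀ p : ℕ, p.Prime → p ∣ N → ‖coef f p‖ ≤ 1
  fricke : ∃ w : ℝ, (w = 1 ∨ w = -1) ∧ ∀ τ τ' : ℍ, (τ' : ℂ) * ((N : ℂ) * (τ : ℂ)) = -1 →
    f τ' = -(w : ℂ) * (N : ℂ) * (τ : ℂ) ^ 2 * f τ
  points : ∀ p : ℕ, GoodPrime a b p → ¬ p ∣ N ∧ coef f p = (p : ℂ) - (pointCount a b p : ℂ)

/-- `pw t u n = α ^ n + β ^ n`, where `α`, `β` are the roots of `X² - t X + u`. -/
noncomputable def pw (t u : ℂ) : ℕ → ℂ
  | 0 => 2
  | 1 => t
  | n + 2 => t * pw t u (n + 1) - u * pw t u n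

section
variable {F : Type} [Field F] [NumberField F]

/-- The number `a_v` of `E : y² = x³ + a x + b` at a finite place `v` of `F`: `Nv` minus the number of
affine solutions `(x, y)` of the equation over the residue field `𝓞 F / v`. -/
noncomputable def av (a b : ℤ) (v : HeightOneSpectrum (𝓞 F)) : ℤ :=
  ((Ideal.absNorm v.asIdeal : ℕ) : ℤ) -
    ((Nat.card {x : (𝓞 F ⧸ v.asIdeal) × (𝓞 F ⧸ v.asIdeal) //
      x.2 ^ 2 = x.1 ^ 3 + (a : 𝓞 F ⧸ v.asIdeal) * x.1 + (b : 𝓞 F ⧸ v.asIdeal)} : ℕ) : ℤ)

open Classical in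
/-- The Euler factor of `L(E/F, s)` at the finite place `v` of `F`.  If `v ∤ 2 Δ`, it is
`(1 - a_v (Nv)^(-s) + (Nv)^(1-2s))⁻¹`.  If `v ∣ 2 Δ` and `Nv = p ^ d` with `p` prime, it is
`(1 - (α^d + β^d) (Nv)^(-s) + (Nv)^(1-2s))⁻¹` for `p ∤ N`, where `α`, `β` are the roots of
`X² - c(p) X + p`, and `(1 - c(p)^d (Nv)^(-s))⁻¹` for `p ∣ N`.  (The primes `p ∣ N` will be
unramified in `F`, so that this is the Hasse-Weil factor.) -/
noncomputable def factor (a b : ℤ) {N : ℕ} (f : CuspForm (Gamma0 N : Subgroup (GL (Fin 2) ℝ)) 2)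
    (s : ℂ) (v : HeightOneSpectrum (𝓞 F)) : ℂ :=
  if ((2 * (4 * a ^ 3 + 27 * b ^ 2) : ℤ) : 𝓞 F) ∈ v.asIdeal then
    (1 - pw (coef f (Ideal.absNorm v.asIdeal).minFac)
          (if (Ideal.absNorm v.asIdeal).minFac ∣ N then 0 else ((Ideal.absNorm v.asIdeal).minFac : ℂ))
          ((Ideal.absNorm v.asIdeal).factorization (Ideal.absNorm v.asIdeal).minFac)
          * ((Ideal.absNorm v.asIdeal : ℕ) : ℂ) ^ (-s)
      + (if (Ideal.absNorm v.asIdeal).minFac ∣ N then (0 : ℂ) else
          ((Ideal.absNorm v.asIdeal : ℕ) : ℂ) ^ (1 - 2 * s)))⁻¹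
  else
    (1 - ((av a b v : ℤ) : ℂ) * ((Ideal.absNorm v.asIdeal : ℕ) : ℂ) ^ (-s)
      + ((Ideal.absNorm v.asIdeal : ℕ) : ℂ) ^ (1 - 2 * s))⁻¹

end

/-- `L(E/F, s)` is entire and of order zero at `s = 1`: there is an entire function `G` which for
`Re s > 3/2` is the Euler product of `E` over all finite places of `F`, and its order of vanishing at
`s = 1` is zero. -/
def FieldOrderZero (F : IntermediateField ℚ ℂ) [NumberField F] (a b : ℤ) {N : ℕ}
    (f : CuspForm (Gamma0 N : Subgroup (GL (Fin 2) ℝ)) 2) : Prop :=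
  ∃ G : ℂ → ℂ, Differentiable ℂ G ∧
    (∀ s : ℂ, 3 / 2 < s.re → HasProd (fun v : HeightOneSpectrum (𝓞 F) => factor a b f s v) (G s)) ∧
    analyticOrderAt G 1 = 0

/-- The set of the `r`-tuples of elements of `H`. -/
def Tuples (H : Subgroup Fam) (r : ℕ) : Set (Fin r → Fam) := {c | ∀ j, c j ∈ H}

/-- The property `P` holds for a proportion at least `2 ^ (-V)` of the `r`-tuples in `H`: there is a set
`K` of at most `2 ^ V` tuples in `H` such that every tuple in `H` can be multiplied by an element of `K`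
so that the product has the property `P`; so the proportion of the tuples with `P` is at least
`2 ^ (-V)` if `H` is finite, and if `H` is infinite, the number of the tuples with product of the
conductors at most `X` is at most `2 ^ V` times the number of the tuples with `P` and with product of
the conductors at most `C X`, `C` independent of `X`. -/
def ManyTuples (V : ℕ) (H : Subgroup Fam) (r : ℕ) (P : (Fin r → Fam) → Prop) : Prop :=
  (∃ K : Finset (Fin r → Fam), K.card ≤ 2 ^ V ∧ (K : Set (Fin r → Fam)) ⊆ Tuples H r ∧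
    ∀ c ∈ Tuples H r, ∃ k ∈ K, P (fun j => c j * k j)) ∧
  ((H : Set Fam).Finite → (Tuples H r).ncard ≤ 2 ^ V * {c | c ∈ Tuples H r ∧ P c}.ncard) ∧
  ∃ C : ℕ, ∀ X : ℕ, {c | c ∈ Tuples H r ∧ ∏ j, conductor (c j) ≤ X}.ncard ≤
    2 ^ V * {c | (c ∈ Tuples H r ∧ P c) ∧ ∏ j, conductor (c j) ≤ C * X}.ncard

theorem pw_eq (t u : ℂ) : ∀ n : ℕ, pw t u n = W165.CE.pw t u n
  | 0 => rfl
  | 1 => rfl
  | n + 2 => by rw [pw, W165.CE.pw, pw_eq t u (n + 1), pw_eq t u n]

theorem factor_eq {F : Type} [Field F] [NumberField F] (a b : ℤ) {N : ℕ}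
    (f : CuspForm (Gamma0 N : Subgroup (GL (Fin 2) ℝ)) 2) (s : ℂ) (v : HeightOneSpectrum (𝓞 F)) :
    factor a b f s v = W165.CE.fac a b N (Pool.Agent.Y18.BSD.co f) s v := by
  unfold factor W165.CE.fac
  rw [pw_eq]
  rfl

theorem rz_iff {a b : ℤ} {N : ℕ} {f : CuspForm (Gamma0 N : Subgroup (GL (Fin 2) ℝ)) 2}
    {F : IntermediateField ℚ ℂ} [NumberField F] :
    FieldOrderZero F a b f ↔ Pool.Agent.Y18.NF.RZ F a b f := by
  constructor
  · rintro ⟨G, hG1, hG2, hG3⟩
    refine ⟨G, hG1, fun s hs => ?_, ?_⟩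
    · refine (congrArg (fun g => HasProd g (G s)) (funext fun v => ?_)).mp (hG2 s hs)
      exact factor_eq a b f s v
    · have h1 : AnalyticAt ℂ G 1 := hG1.analyticAt 1
      exact h1.analyticOrderAt_eq_zero.1 hG3
  · rintro ⟨G, hG1, hG2, hG3⟩
    refine ⟨G, hG1, fun s hs => ?_, analyticOrderAt_eq_zero.2 (Or.inr hG3)⟩
    refine (congrArg (fun g => HasProd g (G s)) (funext fun v => ?_)).mp (hG2 s hs)
    exact (factor_eq a b f s v).symm

/-- **Theorem.** Let `F_0` be the abelian number field of squarefree conductor attached to the finite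
group `C` of Dirichlet characters, let `E_1, …, E_m`, `m ≥ 1`, be elliptic curves over `ℚ` with newforms
`f_i` of levels `N_i` prime to the conductors of the characters in `C` and with
`ord_{s = 1} L(E_i/F_0, s) = 0`, let `l` be a prime and let `n`, `r` be given. There is `V` such that for
every group `H` of Dirichlet characters of order dividing `l ^ n` and of squarefree conductors composed
of admissible primes, `ord_{s = 1} L(E_i/F, s) = 0` for all `i` and all number fields `F` contained in
the composite of `F_0` and the field attached to `χ_1, …, χ_r`, for a proportion at least `2 ^ (-V)` of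
the tuples `(χ_1, …, χ_r)` in `H`. -/
theorem result (m : ℕ) (hm : 0 < m) (a b : Fin m → ℤ) (hE : ∀ i, 4 * a i ^ 3 + 27 * b i ^ 2 ≠ 0)
    (N : Fin m → ℕ) (hN : ∀ i, N i ≠ 0)
    (f : (i : Fin m) → CuspForm (Gamma0 (N i) : Subgroup (GL (Fin 2) ℝ)) 2)
    (hf : ∀ i, IsFormOf (a i) (b i) (N i) (f i)) (C : Subgroup Fam) (hC : IsBaseGroup N C)
    (F₀ : IntermediateField ℚ ℂ) [NumberField F₀] (hF₀ : F₀ = groupField C)
    (h0 : ∀ i, FieldOrderZero F₀ (a i) (b i) (f i)) (l : ℕ) (hl : l.Prime) (n r : ℕ) :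
    ∃ V : ℕ, ∀ H : Subgroup Fam, IsCharGroup a b l n C H →
      ManyTuples V H r (fun c => ∀ (F : IntermediateField ℚ ℂ) [NumberField F],
        F ≤ F₀ ⊔ tupleField c → ∀ i, FieldOrderZero F (a i) (b i) (f i)) := by
  have : ∀ i, NeZero (N i) := fun i => ⟨hN i⟩
  have hf' : ∀ i, Pool.Agent.Y18.BSD.IsFormOf (a i) (b i) (N i) (f i) := fun i =>
    ⟨(hf i).one, (hf i).real, (hf i).mul, (hf i).pow, (hf i).good, (hf i).bad,
      (hf i).fricke, (hf i).points⟩
  obtain ⟨V, hV⟩ := Pool.Agent.R901.RT.fields_rel m a b hE N f hf' C hC.finite hC.supp hC.prime F₀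
    hF₀ (fun i => rz_iff.1 (h0 i)) l n r hl hm
  refine ⟨V, fun H hH => ?_⟩
  have hOk : Pool.Agent.R901.RT.HOkR m a b l n C H := ⟨hH.pow, hH.finite, hH.admissible⟩
  obtain ⟨K, h1, h2, h3⟩ := hV H hOk
  have h4 : ∀ c : Fin r → Fam, (∀ j, c j ∈ H) → ∃ k ∈ K,
      (fun c : Fin r → Fam => ∀ (F : IntermediateField ℚ ℂ) [NumberField F],
        F ≤ F₀ ⊔ tupleField c → ∀ i, FieldOrderZero F (a i) (b i) (f i)) (fun j => c j * k j) := by
    intro c hc
    obtain ⟨k, hk, h5⟩ := h3 c hc
    exact ⟨k, hk, fun F _ hF i => rz_iff.2 (h5 F hF i)⟩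
  refine ⟨⟨K, h1, fun k hk => h2 k hk, h4⟩, ?_⟩
  exact Pool.Agent.R901.EC.many_tuples hH.finite (fun c hc q hq => (hH.admissible c hc q hq).1) K
    h1 h2 h4

end Pool.Agent.Results.MP_50bb2e_nt.RelativeTwists
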